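import Pool.Agent.N659.HB.Stm10

/-!
SN/KB2U: products of resolvent elements without complex conjugation, general law; after
`Pool.Agent.N887.SD.KB2` (helper887).
-/

set_option autoImplicit false

namespace Pool.Agent.N499.SN.KB2U

open MeasureTheory Filter Pool.Agent.W792.LL Pool.Agent.W792.WA Pool.Agent.N659.HB
open scoped Topology ENNReal

lemma quarter {T y : ℝ} (hy : 0 < y) (hT : 0 ≤ T) (h : T ≤ 1 / y) :
    T ≤ y ^ (-(3 / 4) : ℝ) * T ^ (1 / 4 : ℝ) := by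
  have h1 : T = T ^ (3 / 4 : ℝ) * T ^ (1 / 4 : ℝ) := by
    rw [← Real.rpow_add_of_nonneg hT (by norm_num) (by norm_num)]
    norm_num
  have h2 : T ^ (3 / 4 : ℝ) ≤ y ^ (-(3 / 4) : ℝ) := by
    rw [Real.rpow_neg hy.le, ← Real.inv_rpow hy.le, ← one_div]
    exact Real.rpow_le_rpow hT h (by norm_num)
  conv_lhs => rw [h1]
  exact mul_le_mul_of_nonneg_right h2 (Real.rpow_nonneg hT _)

lemma am {P G s : ℝ} (hP : 0 ≤ P) (hG : 0 ≤ G) (hs : 0 < s) :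
    (P * G) ^ (1 / 4 : ℝ) ≤ (s * P ^ (1 / 2 : ℝ) + G ^ (1 / 2 : ℝ) / s) / 2 := by
  have h1 : ∀ P : ℝ, 0 ≤ P → P ^ (1 / 2 : ℝ) = (P ^ (1 / 4 : ℝ)) ^ 2 := by
    intro P hP
    rw [← Real.rpow_natCast, ← Real.rpow_mul hP]
    norm_num
  rw [Real.mul_rpow hP hG, h1 P hP, h1 G hG]
  generalize P ^ (1 / 4 : ℝ) = u
  generalize G ^ (1 / 4 : ℝ) = v
  rw [le_div_iff₀ two_pos]
  have h2 : s * u ^ 2 + v ^ 2 / s - u * v * 2 = (s * u - v) ^ 2 / s := by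
    field_simp
    ring
  have h3 : 0 ≤ (s * u - v) ^ 2 / s := by positivity
  linarith

/-- pointwise bound -/
lemma pw {y C P Pb S J s : ℝ} (hy : 0 < y) (hC : 0 < C) (hs : 0 < s) (hP : 0 ≤ P) (hPb : 0 ≤ Pb)
    (hS : 0 < S) (hPS : P * Pb ≤ S) (hJ0 : 0 ≤ J) (h1 : J ≤ C) (h2 : J ≤ C / (y * S)) :
    P * Pb * J ≤ C * y ^ (-(3 / 4) : ℝ) * ((s * P ^ (1 / 2 : ℝ) + Pb ^ (1 / 2 : ℝ) / s) / 2) := by
  have hT : 0 ≤ P * Pb := mul_nonneg hP hPb
  obtain ⟨T', hT'⟩ : ∃ T', T' = P * Pb * (J / C) := ⟨_, rfl⟩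
  have hJC : 0 ≤ J / C := div_nonneg hJ0 hC.le
  have hT'0 : 0 ≤ T' := by rw [hT']; exact mul_nonneg hT hJC
  have hT'1 : T' ≤ P * Pb := by
    rw [hT']
    refine mul_le_of_le_one_right hT ?_
    rw [div_le_one hC]
    exact h1
  have hT'2 : T' ≤ 1 / y := by
    rw [hT']
    have h3 : J / C ≤ 1 / (y * S) := by
      rw [div_le_iff₀ hC]
      refine h2.trans (le_of_eq ?_)
      ring
    refine (mul_le_mul hPS h3 hJC hS.le).trans (le_of_eq ?_)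
    field_simp
  have h3 := quarter hy hT'0 hT'2
  have h4 : T' ^ (1 / 4 : ℝ) ≤ (s * P ^ (1 / 2 : ℝ) + Pb ^ (1 / 2 : ℝ) / s) / 2 :=
    (Real.rpow_le_rpow hT'0 hT'1 (by norm_num)).trans (am hP hPb hs)
  have h5 : P * Pb * J = C * T' := by
    rw [hT']
    field_simp
  rw [h5, mul_assoc]
  refine mul_le_mul_of_nonneg_left (h3.trans ?_) hC.le
  exact mul_le_mul_of_nonneg_left h4 (Real.rpow_nonneg hy.le _)

lemma nd_comm {d : ℕ} (x a : Fin d → ℤ) : nd x a = nd a x := by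
  unfold nd
  refine Finset.sum_congr rfl fun i _ => ?_
  rw [← Int.natAbs_neg]
  congr 1
  ring

section

variable {d : ℕ} {w γ : ℝ} {ζ : ℂ} {μ : Measure ℝ} [IsProbabilityMeasure μ]

lemma ae_site (hRS : S_RS) (hsupp : ∀ᵐ t ∂μ, |t| ≤ w) (x : Fin d → ℤ) :
    ∀ᵐ v ∂(Pn μ (Fin d → ℤ)), |v x| ≤ w := by
  have h1 := hRS μ d x
  rw [← h1.map_eq]
  rw [ae_map_iff h1.measurable.aemeasurable
    (measurableSet_le (measurable_pi_apply x).abs measurable_const)]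
  have h2 := (Measure.quasiMeasurePreserving_snd (μ := Pn μ (Fin d → ℤ))
    (ν := μ)).ae hsupp
  filter_upwards [h2] with p hp
  rwa [Function.update_self]

/-- the integral over one site -/
lemma resample (hRK : S_RK) (hRS : S_RS) (hsupp : ∀ᵐ t ∂μ, |t| ≤ w) (hw : 0 < w) (hγ : 0 ≤ γ)
    (hζ : 0 < ζ.im) (x a b : Fin d → ℤ) :
    ∫ v, ge w γ ζ v a x * ge w γ ζ v x b ∂(Pn μ (Fin d → ℤ)) =
      ∫ v, Qx w γ ζ x a v * Qx w γ ζ x b v *
        (∫ t : ℝ, 1 / ((t : ℂ) - Zx w γ ζ x v) ^ 2 ∂μ) ∂(Pn μ (Fin d → ℤ)) := by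
  obtain ⟨hZm, hQm, ⟨CQ, hCQ⟩, hsym, hK⟩ := hRK d w γ ζ hw hγ hζ
  have hZim : ∀ v, ζ.im ≤ (Zx w γ ζ x v).im := by
    intro v
    obtain ⟨k1, k2, k3, -⟩ := hK x v
    rw [k3]
    have h1 := k2.le_tsum x (fun _ _ => by positivity)
    rw [k1] at h1
    simp only [norm_one, one_pow] at h1
    nlinarith
  have hb : ∀ (v : (Fin d → ℤ) → ℝ) (t : ℝ), ζ.im ≤ ‖(t : ℂ) - Zx w γ ζ x v‖ := by
    intro v t
    have h1 := Complex.abs_im_le_norm ((t : ℂ) - Zx w γ ζ x v)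
    rw [Complex.sub_im, Complex.ofReal_im, zero_sub, abs_neg] at h1
    have h2 := hZim v
    have h3 := le_abs_self (Zx w γ ζ x v).im
    linarith
  obtain ⟨F', hF'⟩ : ∃ F' : ((Fin d → ℤ) → ℝ) → ℂ, F' = fun v =>
      Qx w γ ζ x a v * Qx w γ ζ x b v / ((v x : ℂ) - Zx w γ ζ x v) ^ 2 := ⟨_, rfl⟩
  have hF'm : Measurable F' := by
    rw [hF']
    have h1 : Measurable fun v : (Fin d → ℤ) → ℝ => ((v x : ℝ) : ℂ) :=
      Complex.measurable_ofReal.comp (measurable_pi_apply x)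
    exact ((hQm x a).mul (hQm x b)).div ((h1.sub (hZm x)).pow_const 2)
  have hφ := hRS μ d x
  have e1 : ∫ v, ge w γ ζ v a x * ge w γ ζ v x b ∂(Pn μ (Fin d → ℤ)) =
      ∫ v, F' v ∂(Pn μ (Fin d → ℤ)) := by
    refine integral_congr_ae ?_
    filter_upwards [ae_site (d := d) (w := w) hRS hsupp x] with v hv
    have h1 := (hK x v).2.2.2.2.1 (v x)
    have h2 := h1 a hv
    have h3 := h1 b hv
    rw [Function.update_eq_self] at h2 h3
    rw [(hsym v a x).1, h2, h3, hF']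
    simp only
    rw [div_mul_div_comm, sq]
  rw [e1]
  conv_lhs => rw [← hφ.map_eq]
  rw [integral_map hφ.measurable.aemeasurable hF'm.aestronglyMeasurable]
  have e2 : ∀ p : ((Fin d → ℤ) → ℝ) × ℝ, F' (Function.update p.1 x p.2) =
      Qx w γ ζ x a p.1 * Qx w γ ζ x b p.1 * (1 / ((p.2 : ℂ) - Zx w γ ζ x p.1) ^ 2) := by
    intro p
    obtain ⟨h1, h2⟩ := (hK x p.1).2.2.2.1 p.2
    rw [hF']
    simp only
    rw [h1, h2, h2, Function.update_self, mul_one_div]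
  have hint : Integrable (fun p : ((Fin d → ℤ) → ℝ) × ℝ => F' (Function.update p.1 x p.2))
      ((Pn μ (Fin d → ℤ)).prod μ) := by
    refine Integrable.of_bound (hF'm.comp hφ.measurable).aestronglyMeasurable
      (CQ * CQ * (1 / ζ.im ^ 2)) (Eventually.of_forall fun p => ?_)
    rw [e2, norm_mul, norm_mul, norm_div, norm_one, norm_pow]
    have h1 := hCQ x a p.1
    have h2 := hCQ x b p.1
    have h3 : 0 ≤ CQ := (norm_nonneg _).trans h1
    refine mul_le_mul (mul_le_mul h1 h2 (norm_nonneg _) h3) ?_ (by positivity) (by positivity)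
    refine one_div_le_one_div_of_le (by positivity) ?_
    exact pow_le_pow_left₀ hζ.le (hb p.1 p.2) 2
  rw [integral_prod _ hint]
  refine integral_congr_ae (Eventually.of_forall fun v => ?_)
  simp only
  have e4 : ∫ t, F' (Function.update v x t) ∂μ = ∫ t : ℝ,
      Qx w γ ζ x a v * Qx w γ ζ x b v * (1 / ((t : ℂ) - Zx w γ ζ x v) ^ 2) ∂μ :=
    integral_congr_ae (Eventually.of_forall fun t => e2 (v, t))
  rw [e4, integral_const_mul]

/-- the estimate for one term -/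
lemma term (hRK : S_RK) (hRS : S_RS) {A C c y₀ : ℝ} (hU : UL μ w A C c y₀) (hy : y₀ ≤ ζ.im)
    (hγ : 0 ≤ γ) (x a b : Fin d → ℤ) {α β s : ℝ} (hs : 0 < s)
    (h1 : ∫ v, ‖Qx w γ ζ x a (Function.update v x w)‖ ^ (1 / 2 : ℝ) ∂(Pn μ (Fin d → ℤ)) ≤ α)
    (h2 : ∫ v, ‖Qx w γ ζ x b (Function.update v x w)‖ ^ (1 / 2 : ℝ) ∂(Pn μ (Fin d → ℤ)) ≤ β) :
    ‖∫ v, ge w γ ζ v a x * ge w γ ζ v x b ∂(Pn μ (Fin d → ℤ))‖ ≤
      C * ζ.im ^ (-(3 / 4) : ℝ) * ((s * α + β / s) / 2) := by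
  have hζ : 0 < ζ.im := lt_of_lt_of_le hU.hy hy
  have hw : 0 < w := by linarith [hU.hA, hU.hw]
  have hC : 0 < C := lt_of_lt_of_le one_pos hU.hC
  rw [resample hRK hRS hU.supp hw hγ hζ]
  obtain ⟨hZm, hQm, ⟨CQ, hCQ⟩, hsym, hK⟩ := hRK d w γ ζ hw hγ hζ
  refine (norm_integral_le_integral_norm _).trans ?_
  have hQe : ∀ (a : Fin d → ℤ) (v : (Fin d → ℤ) → ℝ),
      Qx w γ ζ x a (Function.update v x w) = Qx w γ ζ x a v :=
    fun a v => ((hK x v).2.2.2.1 w).2 a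
  simp only [hQe] at h1 h2
  -- integrability
  have i1 : ∀ a : Fin d → ℤ, Integrable (fun v => ‖Qx w γ ζ x a v‖ ^ (1 / 2 : ℝ))
      (Pn μ (Fin d → ℤ)) := by
    intro a
    refine Integrable.of_bound ((hQm x a).norm.pow_const _).aestronglyMeasurable
      (CQ ^ (1 / 2 : ℝ)) (Eventually.of_forall fun v => ?_)
    rw [Real.norm_of_nonneg (by positivity)]
    exact Real.rpow_le_rpow (norm_nonneg _) (hCQ x a v) (by norm_num)
  -- the pointwise bound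
  have hpt : ∀ v, ‖Qx w γ ζ x a v * Qx w γ ζ x b v *
      (∫ t : ℝ, 1 / ((t : ℂ) - Zx w γ ζ x v) ^ 2 ∂μ)‖ ≤
      C * ζ.im ^ (-(3 / 4) : ℝ) * ((s * ‖Qx w γ ζ x a v‖ ^ (1 / 2 : ℝ) +
        ‖Qx w γ ζ x b v‖ ^ (1 / 2 : ℝ) / s) / 2) := by
    intro v
    obtain ⟨k1, k2, k3, -⟩ := hK x v
    have hS1 := k2.le_tsum x (fun _ _ => by positivity)
    rw [k1] at hS1
    simp only [norm_one, one_pow] at hS1
    have hSa := k2.le_tsum a (fun _ _ => by positivity)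
    have hSb := k2.le_tsum b (fun _ _ => by positivity)
    generalize (∑' a, ‖Qx w γ ζ x a v‖ ^ 2) = Sg at hS1 hSa hSb k3
    have hS0 : 0 < Sg := by linarith
    have hZ : ζ.im ≤ (Zx w γ ζ x v).im := by
      rw [k3]
      nlinarith
    have hJ1 := hU.u3 _ (hy.trans hZ)
    have hJ2 : ‖∫ t : ℝ, 1 / ((t : ℂ) - Zx w γ ζ x v) ^ 2 ∂μ‖ ≤ C / (ζ.im * Sg) := by
      rw [← k3]
      refine (norm_integral_le_integral_norm _).trans ?_
      refine le_trans (le_of_eq ?_) (hU.u1 _ (lt_of_lt_of_le hζ hZ))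
      refine integral_congr_ae (Eventually.of_forall fun t => ?_)
      simp only
      rw [norm_div, norm_one, norm_pow]
    rw [norm_mul, norm_mul]
    have hPP : ‖Qx w γ ζ x a v‖ * ‖Qx w γ ζ x b v‖ ≤ Sg := by
      nlinarith [sq_nonneg (‖Qx w γ ζ x a v‖ - ‖Qx w γ ζ x b v‖)]
    exact pw hζ hC hs (norm_nonneg _) (norm_nonneg _) hS0 hPP (norm_nonneg _) hJ1 hJ2
  have i4 : Integrable (fun v => s * ‖Qx w γ ζ x a v‖ ^ (1 / 2 : ℝ) +
      ‖Qx w γ ζ x b v‖ ^ (1 / 2 : ℝ) / s) (Pn μ (Fin d → ℤ)) :=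
    ((i1 a).const_mul s).add ((i1 b).div_const s)
  have hbi : Integrable (fun v => C * ζ.im ^ (-(3 / 4) : ℝ) *
      ((s * ‖Qx w γ ζ x a v‖ ^ (1 / 2 : ℝ) + ‖Qx w γ ζ x b v‖ ^ (1 / 2 : ℝ) / s) / 2))
      (Pn μ (Fin d → ℤ)) := (i4.div_const 2).const_mul _
  refine (integral_mono_of_nonneg (Eventually.of_forall fun v => norm_nonneg _) hbi
    (Eventually.of_forall hpt)).trans ?_
  rw [integral_const_mul, integral_div, integral_add ((i1 a).const_mul s) ((i1 b).div_const s),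
    integral_const_mul, integral_div]
  refine mul_le_mul_of_nonneg_left ?_ (by positivity)
  refine div_le_div_of_nonneg_right ?_ (by norm_num)
  exact add_le_add (mul_le_mul_of_nonneg_left h1 hs.le) (div_le_div_of_nonneg_right h2 hs.le)

end

theorem main : S_RK → S_RS → S_FMU → S_GS → S_KB2U := by
  intro hRK hRS hFM hGS d A C c
  obtain ⟨C₁, γ₁, hC₁, hγ₁, hF⟩ := hFM d A C c
  obtain ⟨D, hD, hG⟩ := hGS d
  refine ⟨max 1 (C * (D * D)), min γ₁ ((1 / (4 * C₁)) ^ 2), le_max_left _ _,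
    lt_min hγ₁ (by positivity), ?_⟩
  intro μ _ w y₀ hU γ hγ hγle ζ hζre hy hζ2 a
  have hζ : 0 < ζ.im := lt_of_lt_of_le hU.hy hy
  have hC : 0 < C := lt_of_lt_of_le one_pos hU.hC
  have hγ1 := hγle.trans (min_le_left _ _)
  have hγ2 := hγle.trans (min_le_right _ _)
  obtain ⟨r, hr⟩ : ∃ r : ℝ, r = Real.sqrt (C₁ * γ ^ (1 / 2 : ℝ)) := ⟨_, rfl⟩
  have hr0 : 0 < r := by
    rw [hr]
    exact Real.sqrt_pos.2 (by positivity)
  have hrr : C₁ * γ ^ (1 / 2 : ℝ) = r ^ 2 := by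
    rw [hr, Real.sq_sqrt (by positivity)]
  have hr2 : r ≤ 1 / 2 := by
    have h1 : γ ^ (1 / 2 : ℝ) ≤ 1 / (4 * C₁) := by
      rw [← Real.sqrt_eq_rpow]
      rw [← Real.sqrt_sq (show (0 : ℝ) ≤ 1 / (4 * C₁) by positivity)]
      exact Real.sqrt_le_sqrt hγ2
    have h2 : r ^ 2 ≤ (1 / 2) ^ 2 := by
      rw [← hrr]
      calc C₁ * γ ^ (1 / 2 : ℝ) ≤ C₁ * (1 / (4 * C₁)) :=
            mul_le_mul_of_nonneg_left h1 (by positivity)
        _ = (1 / 2) ^ 2 := by field_simp; norm_num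
    exact (pow_le_pow_iff_left₀ hr0.le (by norm_num) two_ne_zero).1 h2
  have hgs : ∀ a : Fin d → ℤ, ∑' x : Fin d → ℤ, ENNReal.ofReal (r ^ nd x a) ≤
      ENNReal.ofReal D := by
    intro a
    obtain ⟨h1, h2, -⟩ := hG r hr0.le hr2 a
    rw [← ENNReal.ofReal_tsum_of_nonneg (fun x => by positivity) h1]
    exact ENNReal.ofReal_le_ofReal h2
  have hterm : ∀ x b : Fin d → ℤ,
      ‖∫ v, ge w γ ζ v a x * ge w γ ζ v x b ∂(Pn μ (Fin d → ℤ))‖ ≤
        C * ζ.im ^ (-(3 / 4) : ℝ) * (r ^ nd x a * r ^ nd x b) := by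
    intro x b
    obtain ⟨f1, -⟩ := hF μ w y₀ hU γ hγ hγ1 ζ hζre hy hζ2 x a x
    obtain ⟨f2, -⟩ := hF μ w y₀ hU γ hγ hγ1 ζ hζre hy hζ2 x b x
    rw [hrr] at f1 f2
    have hs : 0 < r ^ nd x b / r ^ nd x a := by positivity
    refine (term hRK hRS hU hy hγ.le x a b hs f1 f2).trans (le_of_eq ?_)
    have e1 : (r ^ 2) ^ nd x a = (r ^ nd x a) ^ 2 := by rw [← pow_mul, ← pow_mul, mul_comm]
    have e2 : (r ^ 2) ^ nd x b = (r ^ nd x b) ^ 2 := by rw [← pow_mul, ← pow_mul, mul_comm]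
    rw [e1, e2]
    have ha : 0 < r ^ nd x a := by positivity
    have hb : 0 < r ^ nd x b := by positivity
    generalize r ^ nd x a = ra at *
    generalize r ^ nd x b = rb at *
    have e3 : (rb / ra * ra ^ 2 + rb ^ 2 / (rb / ra)) / 2 = ra * rb := by
      field_simp
      ring
    rw [e3]
  have hK0 : 0 ≤ C * ζ.im ^ (-(3 / 4) : ℝ) := by positivity
  calc ∑' b : Fin d → ℤ, ∑' x : Fin d → ℤ, ENNReal.ofReal
        ‖∫ v, ge w γ ζ v a x * ge w γ ζ v x b ∂(Pn μ (Fin d → ℤ))‖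
      ≤ ∑' b : Fin d → ℤ, ∑' x : Fin d → ℤ,
        ENNReal.ofReal (C * ζ.im ^ (-(3 / 4) : ℝ)) *
          (ENNReal.ofReal (r ^ nd x a) * ENNReal.ofReal (r ^ nd x b)) := by
        refine ENNReal.tsum_le_tsum fun b => ENNReal.tsum_le_tsum fun x => ?_
        rw [← ENNReal.ofReal_mul (by positivity), ← ENNReal.ofReal_mul hK0]
        exact ENNReal.ofReal_le_ofReal (hterm x b)
    _ = ∑' x : Fin d → ℤ, ENNReal.ofReal (C * ζ.im ^ (-(3 / 4) : ℝ)) *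
          (ENNReal.ofReal (r ^ nd x a) * ∑' b : Fin d → ℤ, ENNReal.ofReal (r ^ nd x b)) := by
        rw [ENNReal.tsum_comm]
        refine tsum_congr fun x => ?_
        rw [ENNReal.tsum_mul_left, ENNReal.tsum_mul_left]
    _ ≤ ∑' x : Fin d → ℤ, ENNReal.ofReal (C * ζ.im ^ (-(3 / 4) : ℝ)) *
          (ENNReal.ofReal (r ^ nd x a) * ENNReal.ofReal D) := by
        refine ENNReal.tsum_le_tsum fun x => ?_
        gcongr
        simp only [nd_comm x]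
        exact hgs x
    _ = ENNReal.ofReal (C * ζ.im ^ (-(3 / 4) : ℝ)) *
          ((∑' x : Fin d → ℤ, ENNReal.ofReal (r ^ nd x a)) * ENNReal.ofReal D) := by
        rw [ENNReal.tsum_mul_left, ENNReal.tsum_mul_right]
    _ ≤ ENNReal.ofReal (C * ζ.im ^ (-(3 / 4) : ℝ)) *
          (ENNReal.ofReal D * ENNReal.ofReal D) := by
        gcongr
        exact hgs a
    _ = ENNReal.ofReal (C * ζ.im ^ (-(3 / 4) : ℝ) * (D * D)) := by
        rw [← ENNReal.ofReal_mul (by positivity), ← ENNReal.ofReal_mul hK0]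
    _ ≤ _ := by
        refine ENNReal.ofReal_le_ofReal ?_
        have h1 : C * (D * D) ≤ max 1 (C * (D * D)) := le_max_right _ _
        have h2 : 0 ≤ ζ.im ^ (-(3 / 4) : ℝ) := by positivity
        have h3 := mul_le_mul_of_nonneg_right h1 h2
        linarith

end Pool.Agent.N499.SN.KB2U
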